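import Mathlib

/-!
# The pointwise Barbashin condition does not force uniform exponential stability

On `ℓ₁` take `A n x = x n • e (n+1)`.  Then `A_m^k x = x k • e m` for `k < m`, so the pointwise
sums over the initial time `k` are bounded by `2 ‖x‖`, although `‖A_m^k (e k)‖ = 1` for all `m ≥ k`.
-/

set_option autoImplicit false

namespace Pool.Agent.Results.MP_a62e4d_an.PointwiseBarbashinFails

open scoped ENNReal lp

/-- The evolution operators `A_m^k` of the system `x (n+1) = A n (x n)`: `evol A m k` is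
`A (m-1) ∘ ⋯ ∘ A k` for `k < m`, and the identity for `m = k`. -/
noncomputable def evol {𝕜 X : Type} [RCLike 𝕜] [NormedAddCommGroup X] [NormedSpace 𝕜 X]
    (A : ℕ → (X →L[𝕜] X)) : ℕ → ℕ → (X →L[𝕜] X)
  | 0, _ => ContinuousLinearMap.id 𝕜 X
  | m + 1, k => if k ≤ m then (A m).comp (evol A m k) else ContinuousLinearMap.id 𝕜 X

/-- Uniform exponential stability:
`‖A_m^k x‖ ≤ N * exp (-ν (m - k)) * ‖x‖` for all `m ≥ k ≥ 0` and all `x`. -/
def UniformlyExponentiallyStable {𝕜 X : Type} [RCLike 𝕜] [NormedAddCommGroup X]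
    [NormedSpace 𝕜 X] (A : ℕ → (X →L[𝕜] X)) : Prop :=
  ∃ N ν : ℝ, 1 ≤ N ∧ 0 < ν ∧ ∀ m k : ℕ, k ≤ m → ∀ x : X,
    ‖evol A m k x‖ ≤ N * Real.exp (-ν * ((m : ℝ) - (k : ℝ))) * ‖x‖

/-- Condition (iii): `∑_{k=0}^m ‖A_m^k x‖ ≤ B ‖x‖` for all `m` and `x`. -/
def PointwiseBarbashin {𝕜 X : Type} [RCLike 𝕜] [NormedAddCommGroup X]
    [NormedSpace 𝕜 X] (A : ℕ → (X →L[𝕜] X)) (B : ℝ) : Prop :=
  ∀ (m : ℕ) (x : X), ∑ k ∈ Finset.range (m + 1), ‖evol A m k x‖ ≤ B * ‖x‖

section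

variable (𝕜 : Type) [RCLike 𝕜]

/-- `ℓ₁` over `𝕜` -/
abbrev L1 : Type := lp (fun _ : ℕ => 𝕜) 1

/-- the operator `x ↦ x n • e (n+1)` on `ℓ₁` -/
noncomputable def opA (n : ℕ) : L1 𝕜 →L[𝕜] L1 𝕜 :=
  (lp.evalCLM 𝕜 (fun _ : ℕ => 𝕜) 1 n).smulRight
    (lp.single (E := fun _ : ℕ => 𝕜) 1 (n + 1) (1 : 𝕜))

lemma opA_apply (n : ℕ) (x : L1 𝕜) :
    opA 𝕜 n x = (x n) • lp.single (E := fun _ : ℕ => 𝕜) 1 (n + 1) (1 : 𝕜) := rfl

lemma evol_self (k : ℕ) : evol (opA 𝕜) k k = ContinuousLinearMap.id 𝕜 (L1 𝕜) := by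
  cases k with
  | zero => rfl
  | succ k => simp [evol]

lemma evol_apply (k j : ℕ) (x : L1 𝕜) :
    evol (opA 𝕜) (k + 1 + j) k x
      = (x k) • lp.single (E := fun _ : ℕ => 𝕜) 1 (k + 1 + j) (1 : 𝕜) := by
  induction j with
  | zero =>
      have h : evol (opA 𝕜) (k + 1) k = (opA 𝕜 k).comp (evol (opA 𝕜) k k) := by
        simp [evol]
      simp only [Nat.add_zero]
      rw [h, evol_self]
      simp [opA_apply]
  | succ j ih =>
      have h : evol (opA 𝕜) (k + 1 + (j + 1)) k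
          = (opA 𝕜 (k + 1 + j)).comp (evol (opA 𝕜) (k + 1 + j) k) := by
        have : k ≤ k + 1 + j := by omega
        show evol (opA 𝕜) ((k + 1 + j) + 1) k = _
        simp [evol, this]
      rw [h, ContinuousLinearMap.comp_apply, ih, opA_apply]
      simp [lp.single_apply_self, ← add_assoc]

lemma norm_e (n : ℕ) : ‖(lp.single (E := fun _ : ℕ => 𝕜) 1 n (1 : 𝕜))‖ = 1 := by
  rw [lp.norm_single (by norm_num)]
  simp

lemma norm_evol_of_lt {m k : ℕ} (h : k < m) (x : L1 𝕜) :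
    ‖evol (opA 𝕜) m k x‖ = ‖x k‖ := by
  obtain ⟨j, rfl⟩ := Nat.exists_eq_add_of_le (Nat.succ_le_of_lt h)
  have : k.succ + j = k + 1 + j := by omega
  rw [this, evol_apply, norm_smul, norm_e, mul_one]

lemma sum_le (s : Finset ℕ) (x : L1 𝕜) : ∑ k ∈ s, ‖x k‖ ≤ ‖x‖ := by
  have := lp.sum_rpow_le_norm_rpow (p := 1) (by norm_num) x s
  simpa using this

end

/-- **Negative answer to Q1.**  Over `𝕜 = ℝ` or `ℂ` there are a Banach space `X` and a sequence of
bounded operators `A` on `X` satisfying condition (iii) with `B = 2` which is not uniformly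
exponentially stable; indeed for every initial time `k` there is a unit vector `x` whose orbit
satisfies `‖A_m^k x‖ = 1` for all `m ≥ k`. -/
theorem result (𝕜 : Type) [RCLike 𝕜] :
    ∃ (X : Type) (_ : NormedAddCommGroup X) (_ : NormedSpace 𝕜 X) (_ : CompleteSpace X)
      (A : ℕ → (X →L[𝕜] X)),
      PointwiseBarbashin A 2 ∧ ¬ UniformlyExponentiallyStable A ∧
      ∀ k : ℕ, ∃ x : X, ‖x‖ = 1 ∧ ∀ m : ℕ, k ≤ m → ‖evol A m k x‖ = 1 := by
  refine ⟨L1 𝕜, inferInstance, inferInstance, inferInstance, opA 𝕜, ?_, ?_, ?_⟩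
  · intro m x
    rw [Finset.sum_range_succ, evol_self]
    have h1 : ∑ k ∈ Finset.range m, ‖evol (opA 𝕜) m k x‖ = ∑ k ∈ Finset.range m, ‖x k‖ := by
      refine Finset.sum_congr rfl (fun k hk => ?_)
      exact norm_evol_of_lt 𝕜 (Finset.mem_range.mp hk) x
    rw [h1]
    have h2 := sum_le 𝕜 (Finset.range m) x
    simp only [ContinuousLinearMap.id_apply]
    linarith
  · rintro ⟨N, ν, hN, hν, h⟩
    have key : ∀ m : ℕ, 1 ≤ N * Real.exp (-ν * ((m : ℝ) + 1)) := by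
      intro m
      have h1 := h (m + 1) 0 (Nat.zero_le _) (lp.single (E := fun _ : ℕ => 𝕜) 1 0 (1 : 𝕜))
      rw [norm_evol_of_lt 𝕜 (Nat.succ_pos m), norm_e] at h1
      simpa [lp.single_apply_self] using h1
    have hlim : Filter.Tendsto (fun m : ℕ => N * Real.exp (-ν * ((m : ℝ) + 1)))
        Filter.atTop (nhds (N * 0)) := by
      refine Filter.Tendsto.const_mul N ?_
      refine Real.tendsto_exp_atBot.comp ?_
      refine Filter.Tendsto.const_mul_atTop_of_neg (by linarith) ?_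
      exact Filter.tendsto_atTop_add_const_right _ _ tendsto_natCast_atTop_atTop
    have := ge_of_tendsto' hlim key
    linarith
  · intro k
    refine ⟨lp.single (E := fun _ : ℕ => 𝕜) 1 k (1 : 𝕜), norm_e 𝕜 k, ?_⟩
    intro m hm
    rcases Nat.eq_or_lt_of_le hm with rfl | hlt
    · rw [evol_self]
      exact norm_e 𝕜 k
    · rw [norm_evol_of_lt 𝕜 hlt]
      simp [lp.single_apply_self]

end Pool.Agent.Results.MP_a62e4d_an.PointwiseBarbashinFails
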